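import Pool.Agent.helper62.DP8.Spec

set_option autoImplicit false

namespace Pool.Agent.helper62.DP8

theorem PIG : PIG_stmt := by
  intro W A P
  classical
  induction P generalizing A with
  | nil =>
    intro hc _
    obtain ⟨x, hx⟩ := Finset.card_pos.mp (by simpa using hc : 0 < A.card)
    exact ⟨x, hx, by simp⟩
  | cons p P ih =>
    intro hc h
    by_cases hp : ∃ x ∈ A, p x
    · obtain ⟨x, hx, hpx⟩ := hp
      have hcard : P.length < (A.erase x).card := by
        rw [Finset.card_erase_of_mem hx]
        simp only [List.length_cons] at hc
        omega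
      obtain ⟨y, hy, hP⟩ := ih (A.erase x) hcard (by
        intro q hq u hu v hv hqu hqv
        exact h q (List.mem_cons_of_mem _ hq) u (Finset.mem_of_mem_erase hu) v
          (Finset.mem_of_mem_erase hv) hqu hqv)
      refine ⟨y, Finset.mem_of_mem_erase hy, ?_⟩
      intro q hq
      rcases List.mem_cons.mp hq with rfl | hq
      · intro hqy
        have := h q (List.mem_cons_self ..) y (Finset.mem_of_mem_erase hy) x hx hqy hpx
        exact (Finset.ne_of_mem_erase hy) this
      · exact hP q hq
    · have hcard : P.length < A.card := by
        simp only [List.length_cons] at hc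
        omega
      obtain ⟨y, hy, hP⟩ := ih A hcard (by
        intro q hq u hu v hv hqu hqv
        exact h q (List.mem_cons_of_mem _ hq) u hu v hv hqu hqv)
      refine ⟨y, hy, ?_⟩
      intro q hq
      rcases List.mem_cons.mp hq with rfl | hq
      · intro hqy
        exact hp ⟨y, hy, hqy⟩
      · exact hP q hq

end Pool.Agent.helper62.DP8
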